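import Mathlib

/-! Every admissible parameter set for double or triple arrays has `v ≥ r + c - 1`. -/

namespace Pool.Agent.Results.MP_4cb54f_co.NoSmall

/-- Admissible parameters `(v, r, c)` in the non-trivial range, with `e = r c / v`. -/
def Admissible (v r c : ℕ) : Prop :=
  2 ≤ r ∧ 2 ≤ c ∧ max r c < v ∧ 2 * v ≤ r * c ∧ v ∣ r * c ∧
    (r - 1) ∣ c * (r * c / v - 1) ∧ (c - 1) ∣ r * (r * c / v - 1)

theorem result (v r c : ℕ) (h : Admissible v r c) : r + c - 1 ≤ v := by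
  obtain ⟨hr, hc, hm, h2, ⟨e, he⟩, h3, h4⟩ := h
  have hrv : r < v := lt_of_le_of_lt (le_max_left _ _) hm
  have hcv : c < v := lt_of_le_of_lt (le_max_right _ _) hm
  rw [he, Nat.mul_div_cancel_left _ (by omega)] at h3 h4
  have he2 : 2 ≤ e := by
    by_contra h5
    have : v * e ≤ v * 1 := Nat.mul_le_mul_left _ (by omega)
    omega
  have her : e < r := by
    by_contra h5
    have : r * c < v * e := by nlinarith
    omega
  have hec : e < c := by
    by_contra h5
    have : r * c < v * e := by nlinarith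
    omega
  by_contra hlt
  obtain ⟨R, rfl⟩ : ∃ R, r = R + 1 := ⟨r - 1, by omega⟩
  obtain ⟨C, rfl⟩ : ∃ C, c = C + 1 := ⟨c - 1, by omega⟩
  obtain ⟨E, rfl⟩ : ∃ E, e = E + 1 := ⟨e - 1, by omega⟩
  simp only [Nat.add_sub_cancel] at h3 h4
  have hv : v ≤ R + C := by omega
  obtain ⟨g, r', c', hg, hco, rfl, rfl⟩ := Nat.exists_coprime' (m := R) (n := C)
    (Nat.gcd_pos_of_pos_left _ (by omega))
  have h5 : g ∣ E := by
    have h6 : g ∣ (c' * g + 1) * E := (Dvd.intro_left _ rfl).trans h3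
    exact (by simp : Nat.Coprime g (c' * g + 1)).dvd_of_dvd_mul_left h6
  obtain ⟨ε, rfl⟩ := h5
  have h6 : r' ∣ ε * (r' * g + c' * g + 1) := by
    have h7 : r' ∣ (c' * g + 1) * ε :=
      Nat.dvd_of_mul_dvd_mul_right hg (by convert h3 using 1; ring)
    have : ε * (r' * g + c' * g + 1) = (c' * g + 1) * ε + r' * (g * ε) := by ring
    rw [this]
    exact dvd_add h7 (Dvd.intro _ rfl)
  have h7 : c' ∣ ε * (r' * g + c' * g + 1) := by
    have h7 : c' ∣ (r' * g + 1) * ε :=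
      Nat.dvd_of_mul_dvd_mul_right hg (by convert h4 using 1; ring)
    have : ε * (r' * g + c' * g + 1) = (r' * g + 1) * ε + c' * (g * ε) := by ring
    rw [this]
    exact dvd_add h7 (Dvd.intro _ rfl)
  obtain ⟨w, hw⟩ := hco.mul_dvd_of_dvd_of_dvd h6 h7
  have hε : 0 < ε := Nat.pos_of_ne_zero (by rintro rfl; omega)
  have hw2 : g < w := by
    by_contra h8
    have h9 : r' * c' * w ≤ r' * c' * g := Nat.mul_le_mul_left _ (by omega)
    have h10 : v * (g * ε + 1) ≤ (r' * g + c' * g) * (g * ε + 1) := Nat.mul_le_mul_right _ hv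
    have h11 : g * (ε * (r' * g + c' * g + 1)) ≤ g * (r' * c' * g) :=
      Nat.mul_le_mul_left _ (hw ▸ h9)
    nlinarith
  obtain ⟨a, rfl⟩ : ∃ a, r' = ε + (a + 1) := ⟨r' - ε - 1, by
    have : ε < r' := by
      by_contra h8
      have : r' * g ≤ ε * g := Nat.mul_le_mul_right _ (by omega)
      nlinarith
    omega⟩
  obtain ⟨b, rfl⟩ : ∃ b, c' = ε + (b + 1) := ⟨c' - ε - 1, by
    have : ε < c' := by
      by_contra h8
      have : c' * g ≤ ε * g := Nat.mul_le_mul_right _ (by omega)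
      nlinarith
    omega⟩
  have h8 : g * ε + 1 ∣ (a + 1) * (b + 1) := by
    have h9 : g * ε + 1 ∣ g * (g * ((a + 1) * (b + 1))) := by
      have h10 : g * ε + 1 ∣ (g * ε + 1) * (g * ε + 1 + g * (a + 1) + g * (b + 1))
          + g * (g * ((a + 1) * (b + 1))) := ⟨v, by rw [mul_comm _ v, ← he]; ring⟩
      exact (Nat.dvd_add_right (Dvd.intro _ rfl)).1 h10
    have hc : Nat.Coprime (g * ε + 1) g := by simp
    exact hc.dvd_of_dvd_mul_left (hc.dvd_of_dvd_mul_left h9)
  obtain ⟨k, hk⟩ := h8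
  have hk0 : 0 < k := Nat.pos_of_ne_zero (by rintro rfl; simp at hk)
  have h9 : ε * (g * (2 * ε + a + b + 2) + 1)
      = ε * (w * (ε + a + b + 2)) + (g * ε + 1) * (w * k) := by
    have : (ε + (a + 1)) * (ε + (b + 1)) = ε * (ε + a + b + 2) + (g * ε + 1) * k := by
      rw [← hk]; ring
    rw [this] at hw
    linarith
  have h10 : ε ∣ w * k := by
    have h11 : ε ∣ (g * ε + 1) * (w * k) :=
      (Nat.dvd_add_right (Dvd.intro _ rfl)).1 (h9 ▸ Dvd.intro _ rfl)
    exact (by simp : Nat.Coprime ε (g * ε + 1)).dvd_of_dvd_mul_left h11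
  have h11 : ε ≤ w * k := Nat.le_of_dvd (Nat.mul_pos (by omega) hk0) h10
  have h12 : (g * ε + 1) * ε ≤ (g * ε + 1) * (w * k) := Nat.mul_le_mul_left _ h11
  have h13 : ε * ((g + 1) * (ε + a + b + 2)) ≤ ε * (w * (ε + a + b + 2)) :=
    Nat.mul_le_mul_left _ (Nat.mul_le_mul_right _ hw2)
  nlinarith

end Pool.Agent.Results.MP_4cb54f_co.NoSmall
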